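import Pool.Agent.H857.MX.Master
import Pool.Agent.H857.MX.Good
import Pool.Graph.R_pool_sql_team_seeded_2aa45f1a.Q64.U.Thms

/-!
# MP_859dd5_ag: unramified cohomology of degree three of `A × Z`, for arbitrary varieties `Z` over
finite fields and all abelian varieties `A` but a set of isogeny classes of the exact order of
magnitude of its size

Let `g i` (`i` in a finite set `I`) be positive integers. For a prime power `q = p ^ a` let
`families g p a` be the finite set of the families `f i` of Weil polynomials of degrees `2 g i`
relative to `q` with integral Newton polygons. It contains the families of the characteristic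
polynomials of the Frobenius endomorphisms of abelian varieties `A i` of dimensions `g i` over the
field with `q` elements (Weil), which determine the `A i` up to isogeny (Tate). It has about `q ^
(∑ g i (g i + 1) / 4)` elements.

Let the `ρ k` be `r` Weil numbers of weights less than `c` with slopes in `(1 / D) ℤ`, for
instance the eigenvalues of Frobenius on the cohomology of a smooth projective variety over the
field with `q` elements. The family `f` is exceptional if there is a multiplicative relation
between roots of the `f i`, the numbers `ρ k` and `q`, up to roots of unity, which does not come
from the pairs of conjugate roots `z`, `q / z`.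

1. The proportion of the exceptional families among all the families is of the exact order of
magnitude `∑ q ^ (- δ (g i) / 2)`, where `δ (g) = g` for `g ≠ 2` and `δ (2) = 1`: it is at most
`C` times, and at least `1 / C` times this sum. The constant `C` depends only on the `g i`, on
`r`, `c` and `D` - not on `p`, `q` and the `ρ k`.

2. Let `f` be a family which is not exceptional, and let `A` be an abelian variety over the field
with `Q = q ^ s` elements, `s > 0`, which is isogenous to a product of powers of abelian varieties
`A i` with characteristic polynomials `f i`. Let `Z` be **any** smooth projective variety over the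
field with `Q` elements such that

* the eigenvalues of Frobenius on the cohomology of `Z` lie, up to powers, in the group generated
  by the `ρ k` and `q` (`Generated`);
* the motive of `Z` is finite-dimensional in the sense of Kimura and O'Sullivan. This is known for
  all varieties dominated by products of curves. It implies that the Frobenius endomorphism of `Z`
  satisfies, as a correspondence modulo rational equivalence, a polynomial equation with the same
  roots as on the cohomology; only this is used.

**The group `H^3_nr (A × Z, ℚ/ℤ(2))` is finite if and only if `H^3_nr (Z, ℚ/ℤ(2))` is finite.**
More precisely, for all `n ≥ 0` the pull-back `H^(n + 1)_nr (Z, ℚ/ℤ(n)) → H^(n + 1)_nr (A × Z,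
ℚ/ℤ(n))` is an isomorphism up to groups of bounded exponent (`PullIsoBounded`). No case of the
conjectures of Tate or Beilinson is assumed. As `H^3_nr (Z, ℚ/ℤ(2)) = 0` for curves and surfaces
(Colliot-Thélène, Sansuc and Soulé), `H^3_nr (A × Z, ℚ/ℤ(2))` is finite for all curves and all
surfaces `Z` with these properties, also if the Tate conjecture is not known for `Z`. (For `n =
1`, the Brauer groups, the statement is a consequence of the theorem of Tate on homomorphisms of
abelian varieties.)

What is used of `A` are known theorems (`IsAbelian`): `H(A)` is generated by `H^1`, Frobenius is
diagonalizable on `H^1` (Weil), the theorem of Tate on divisors, and the nilpotence of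
homologically trivial correspondences (Kimura). Rational coefficients kill torsion groups;
therefore the theory `T` consists of the groups `(G^ℕ) ⊗ ℚ` (`IsHull`), where `G` is one of the
groups `A^p (X, M, j) = H^p (X_Zar, ℋ^(j + 1) (ℚ/ℤ(j)))` for `X = Z` or `X = A × Z`. The group
`(G^ℕ) ⊗ ℚ` of sequences is zero if and only if `G` has bounded exponent. The group with indices
`p`, `j` has the bidegree `(p + j, j)`; so the product with a cycle of codimension `c` on `A` has
the bidegree `(2 c, c)`, `p = 0` is unramified cohomology (bidegree `(n, n)`), and there are no
groups of bidegree `(i, j)` with `i < j` (`IsUnramified`). Products with cycles, push-forward, and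
the operation of correspondences are due to Rost (and to Gros and Suwa for the `p`-primary part);
they are modelled by `RelData`, with the formal properties in `IsTheory`. The Frobenius
endomorphism of `X` acts on `ℋ^(j + 1) (ℚ/ℤ(j))` as multiplication by `Q ^ j` (`IsPure`). That
`H^3_nr (X, ℚ/ℤ(2))` is a torsion group whose `l`-primary parts are extensions of finite groups by
divisible groups (`IsAlmostDivisible`) is a theorem of Colliot-Thélène and Kahn.

The framework and the geometric part (`Q64.U.unramifiedReduces`) are those of the theorem
`AllCMTypesTimes` of the library, which bounds the number of the exceptional slope types of CM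
fields and asks that the eigenvalues of the other factor are unrelated to these fields. In other
theorems of the library the exceptional set of isogeny classes has a proportion `O (q ^ (-1 / 6)
log q)`, without a lower bound, for other factors with eigenvalues in a group of small rank over a
fixed number field. New here are the arbitrary eigenvalues, the uniformity in `p` and the exact
order of magnitude of the exceptional set. The count is that of MP_557161_ag: the slopes bound the
exponents of the relations, up to proportionality, and each relation is a nontrivial algebraic
equation for the coefficients on almost all pencils of Weil polynomials, by the expansions of the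
roots at infinity.
-/

set_option autoImplicit false

namespace Pool.Agent.Results.MP_859dd5_ag.SharpExceptionalSet

open Pool.Agent.H857.SX Pool.Agent.H857.MX Pool.Agent.Q64.L Pool.Agent.Q64.U

/-- **The exceptional set.** -/
theorem result {I : Type} [Fintype I] (g : I → ℕ) (hg : ∀ i, 0 < g i) (r D c : ℕ) (hD : 0 < D) :
    ∃ C : ℝ, 0 < C ∧ ∀ (p : ℕ) [Fact p.Prime] (a : ℕ), 0 < a →
      ((families g p a).Finite ∧
        ∏ i, Real.sqrt ((p : ℝ) ^ a) ^ (g i * (g i + 1) / 2) ≤ C * (families g p a).ncard ∧
        (families g p a).ncard ≤ C * ∏ i, Real.sqrt ((p : ℝ) ^ a) ^ (g i * (g i + 1) / 2)) ∧
      ∀ (w : Fin r → ℕ) (ρ : Fin r → ℂ), (∀ k, w k < c ∧ IsWeilNumber p a D (w k) (ρ k)) →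
        (({f ∈ families g p a | ¬ Independent f (p ^ a) ρ}.ncard : ℝ) ≤
            C * (rate g ((p : ℝ) ^ a) * (families g p a).ncard) ∧
          rate g ((p : ℝ) ^ a) * (families g p a).ncard ≤
            C * {f ∈ families g p a | ¬ Independent f (p ^ a) ρ}.ncard) ∧
        ∀ f ∈ families g p a, Independent f (p ^ a) ρ →
          UnramifiedReduces (RootsIn (Generated (p ^ a) ρ)) (p ^ a) f :=
  Pool.Agent.H857.MX.master g hg r D c hD (fun q f R => UnramifiedReduces (RootsIn R) q f)
    fun _ _ _ hq _ h0 hR => unramifiedReduces hq (good_of_noRel hR h0)

end Pool.Agent.Results.MP_859dd5_ag.SharpExceptionalSet
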